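import Pool.Agent.Y815.GI.Defs

/-!
# Intersection graphs of balls of equal radius
-/

set_option autoImplicit false

namespace Pool.Agent.J4.H79.GI

open Pool.Agent.NPC Pool.Agent.NPC.R671 Pool.Agent.Y815.GI

/-- `X` is the intersection graph of a family of closed balls of radius one of the metric space
`E`: the vertices can be given centres such that two different vertices are adjacent iff their
balls meet. -/
def IsUnitBallGraph (E : Type) [PseudoMetricSpace E] {V : Type} (X : SimpleGraph V) : Prop :=
  ∃ z : V → E, ∀ u v : V, X.Adj u v ↔
    u ≠ v ∧ (Metric.closedBall (z u) 1 ∩ Metric.closedBall (z v) 1).Nonempty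

/-- The vertex set is the union of two cliques. -/
def CoBipartite {V : Type} (X : SimpleGraph V) : Prop :=
  ∃ s : Set V, ∀ u v : V, u ≠ v → (u ∈ s ↔ v ∈ s) → X.Adj u v

/-- The class of the finite graphs whose vertex set is the union of two cliques and which are at
the same time intersection graphs of Euclidean balls of radius one in `ℝ³` and intersection graphs
of axis-parallel cubes of side two in `ℝ³` (the balls of radius one of the maximum norm). -/
def BallClass {n : ℕ} (X : SimpleGraph (Fin n)) : Prop :=
  CoBipartite X ∧ IsUnitBallGraph (EuclideanSpace ℝ (Fin 3)) X ∧ IsUnitBallGraph (Fin 3 → ℝ) X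

/-- The yes-instances of the isomorphism problem for a class `C` of finite graphs: the pairs of
adjacency matrices of isomorphic graphs both in the class. -/
def ClassIso (C : ∀ n : ℕ, SimpleGraph (Fin n) → Prop)
    (p : List (List Bool) × List (List Bool)) : Prop :=
  ∃ (n m : ℕ) (X : SimpleGraph (Fin n)) (Y : SimpleGraph (Fin m)),
    adjMatrix X = p.1 ∧ adjMatrix Y = p.2 ∧ C n X ∧ C m Y ∧ Nonempty (X ≃g Y)

end Pool.Agent.J4.H79.GI
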