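import Pool.Agent.J4.H79.GI.BallDefs

/-!
# Realisation of two-clique graphs given by three linear preorders
-/

set_option autoImplicit false

namespace Pool.Agent.J4.H79.GI

open Filter Topology

/-- two closed unit balls of a normed space meet iff their centres have distance at most two -/
theorem closedBall_inter_nonempty {E : Type} [NormedAddCommGroup E] [NormedSpace ℝ E] (a b : E) :
    (Metric.closedBall a 1 ∩ Metric.closedBall b 1).Nonempty ↔ dist a b ≤ 2 := by
  constructor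
  · rintro ⟨x, hx, hy⟩
    rw [Metric.mem_closedBall] at hx hy
    have := dist_triangle_left a b x
    linarith
  · intro h
    refine ⟨midpoint ℝ a b, ?_, ?_⟩
    · rw [Metric.mem_closedBall, dist_midpoint_left, Real.norm_ofNat]
      linarith
    · rw [Metric.mem_closedBall, dist_midpoint_right, Real.norm_ofNat]
      linarith

/-- ranks of a function into a linear order -/
theorem exists_rank {V β : Type} [Finite V] [LinearOrder β] (f : V → β) :
    ∃ p : V → ℕ, ∀ x y, p x < p y ↔ f x < f y := by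
  refine ⟨fun x => {z : V | f z < f x}.ncard, fun x y => ?_⟩
  constructor
  · intro h
    by_contra hc
    have h1 : {z : V | f z < f y} ⊆ {z : V | f z < f x} :=
      fun z hz => lt_of_lt_of_le hz (not_lt.1 hc)
    exact absurd h (not_lt.2 (Set.ncard_le_ncard h1 (Set.toFinite _)))
  · intro h
    refine Set.ncard_lt_ncard ?_ (Set.toFinite _)
    refine ⟨fun z hz => lt_trans hz h, fun hs => ?_⟩
    exact lt_irrefl _ (hs (show x ∈ {z : V | f z < f y} from h))

variable {V : Type}

/-- `X` is given by two cliques, `low` and its complement, and three functions. -/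
structure Keyed (X : SimpleGraph V) (low : V → Prop) (p : Fin 3 → V → ℕ) : Prop where
  same : ∀ u v, u ≠ v → (low u ↔ low v) → X.Adj u v
  cross : ∀ u v, low u → ¬ low v → (X.Adj u v ↔ ∀ i, p i u < p i v)

theorem Keyed.cobip {X : SimpleGraph V} {low : V → Prop} {p : Fin 3 → V → ℕ}
    (h : Keyed X low p) : CoBipartite X :=
  ⟨{v | low v}, fun u v h1 h2 => h.same u v h1 h2⟩

/-- It suffices to look at distances. -/
theorem Keyed.realise {E : Type} [NormedAddCommGroup E] [NormedSpace ℝ E] {X : SimpleGraph V}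
    {low : V → Prop} {p : Fin 3 → V → ℕ} (h : Keyed X low p) (z : V → E)
    (h1 : ∀ u v, (low u ↔ low v) → dist (z u) (z v) ≤ 2)
    (h2 : ∀ u v, low u → ¬ low v → (dist (z u) (z v) ≤ 2 ↔ ∀ i, p i u < p i v)) :
    IsUnitBallGraph E X := by
  refine ⟨z, fun u v => ?_⟩
  rw [closedBall_inter_nonempty]
  by_cases hu : low u <;> by_cases hv : low v
  · exact ⟨fun h3 => ⟨h3.ne, h1 u v (by tauto)⟩, fun h3 => h.same u v h3.1 (by tauto)⟩
  · rw [h.cross u v hu hv, h2 u v hu hv]
    refine ⟨fun h3 => ⟨?_, h3⟩, fun h3 => h3.2⟩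
    rintro rfl
    exact hv hu
  · rw [X.adj_comm, h.cross v u hv hu, dist_comm, h2 v u hv hu]
    refine ⟨fun h3 => ⟨?_, h3⟩, fun h3 => h3.2⟩
    rintro rfl
    exact hu hv
  · exact ⟨fun h3 => ⟨h3.ne, h1 u v (by tauto)⟩, fun h3 => h.same u v h3.1 (by tauto)⟩

/-- a bound of finitely many natural numbers -/
theorem exists_bound [Finite V] (p : Fin 3 → V → ℕ) : ∃ N : ℕ, 0 < N ∧ ∀ i v, p i v < N := by
  have h : (Set.range fun q : Fin 3 × V => p q.1 q.2).Finite := Set.finite_range _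
  obtain ⟨N, hN⟩ := h.bddAbove
  refine ⟨N + 1, Nat.succ_pos _, fun i v => Nat.lt_succ_of_le (hN ⟨(i, v), rfl⟩)⟩

open Classical in
/-- **Cubes.** -/
theorem Keyed.cube [Finite V] {X : SimpleGraph V} {low : V → Prop} {p : Fin 3 → V → ℕ}
    (h : Keyed X low p) : IsUnitBallGraph (Fin 3 → ℝ) X := by
  obtain ⟨N, hN, hp⟩ := exists_bound p
  have hN' : (1 : ℝ) ≤ N := by exact_mod_cast hN
  have hp' : ∀ i v, (p i v : ℝ) + 1 ≤ N := fun i v => by exact_mod_cast hp i v
  have hp0 : ∀ i v, (0 : ℝ) ≤ p i v := fun i v => Nat.cast_nonneg _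
  refine h.realise (fun v i => if low v then -(p i v : ℝ) / N else 2 - ((p i v : ℝ) - 1 / 2) / N)
    ?_ ?_
  · intro u v huv
    rw [dist_pi_le_iff (by norm_num)]
    intro i
    rw [Real.dist_eq]
    have h1 := hp' i u
    have h2 := hp' i v
    have h3 := hp0 i u
    have h4 := hp0 i v
    have key : |((p i v : ℝ) - p i u) / N| ≤ 2 := by
      rw [abs_le]
      constructor
      · rw [le_div_iff₀ (by linarith)]; nlinarith
      · rw [div_le_iff₀ (by linarith)]; nlinarith
    by_cases hu : low u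
    · rw [if_pos hu, if_pos (huv.1 hu)]
      convert key using 2
      ring
    · rw [if_neg hu, if_neg (fun h => hu (huv.2 h))]
      convert key using 2
      ring
  · intro u v hu hv
    rw [dist_pi_le_iff (by norm_num)]
    refine forall_congr' fun i => ?_
    rw [Real.dist_eq, if_pos hu, if_neg hv]
    have h1 := hp' i u
    have h2 := hp' i v
    have h3 := hp0 i u
    have h4 := hp0 i v
    have hNpos : (0 : ℝ) < N := by linarith
    have e : -(p i u : ℝ) / N - (2 - ((p i v : ℝ) - 1 / 2) / N)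
        = ((p i v : ℝ) - 1 / 2 - p i u - 2 * N) / N := by
      field_simp
      ring
    rw [e, abs_le, le_div_iff₀ hNpos, div_le_iff₀ hNpos]
    constructor
    · rintro ⟨h5, -⟩
      have h6 : (p i u : ℝ) < p i v := by nlinarith
      exact_mod_cast h6
    · intro h5
      have h6 : (p i u : ℝ) + 1 ≤ p i v := by exact_mod_cast h5
      constructor <;> nlinarith

/-- The quadratic form of the ball construction. -/
theorem eventually_small (K m : ℝ) (hm : 0 < m) : ∀ᶠ ε : ℝ in 𝓝[>] (0 : ℝ), ε ^ 2 * K ≤ m := by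
  have h1 : Tendsto (fun ε : ℝ => ε ^ 2 * K) (𝓝[>] (0 : ℝ)) (𝓝 (0 ^ 2 * K)) :=
    tendsto_nhdsWithin_of_tendsto_nhds (by
      have : Continuous fun ε : ℝ => ε ^ 2 * K := by fun_prop
      exact this.tendsto 0)
  have h2 : (0 : ℝ) ^ 2 * K < m := by simpa using hm
  exact (h1.eventually_lt_const h2).mono fun _ h => h.le

open Classical in
/-- **Balls.** -/
theorem Keyed.ball [Finite V] {X : SimpleGraph V} {low : V → Prop} {p : Fin 3 → V → ℕ}
    (h : Keyed X low p) : IsUnitBallGraph (EuclideanSpace ℝ (Fin 3)) X := by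
  -- the coordinates
  let P : Fin 3 → V → ℝ := fun i v => 4 ^ (p i v)
  have hP : ∀ i v, 0 < P i v := fun i v => by positivity
  -- `x`, `σ` for low vertices and `y`, `τ` for the others
  let a : V → ℝ := fun v => if low v then P 0 v else -(P 2 v / P 0 v) / 2
  let b : V → ℝ := fun v => if low v then P 1 v else -(P 2 v / P 1 v) / 2
  let s : V → ℝ := fun v => if low v then -P 2 v else P 2 v
  let A : V → ℝ := fun v => (a v ^ 2 + b v ^ 2 + s v) / 4
  let Q : V → V → ℝ := fun u v => 2 * (a u * a v + b u * b v) + (s u + s v)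
  have hQ : ∀ u v, low u → ¬ low v → ((∀ i, p i u < p i v) → 0 < Q u v) ∧
      ((¬ ∀ i, p i u < p i v) → Q u v < 0) := by
    intro u v hu hv
    have e : Q u v = P 2 v * (1 - (P 0 u / P 0 v + P 1 u / P 1 v + P 2 u / P 2 v)) := by
      simp only [Q, a, b, s, if_pos hu, if_neg hv]
      have h0 := (hP 0 v).ne'
      have h1 := (hP 1 v).ne'
      have h2 := (hP 2 v).ne'
      field_simp
      ring
    rw [e]
    constructor
    · intro hlt
      have key : ∀ i, P i u / P i v ≤ 1 / 4 := by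
        intro i
        rw [div_le_div_iff₀ (hP i v) (by norm_num)]
        have h3 : p i u + 1 ≤ p i v := hlt i
        calc P i u * 4 = 4 ^ (p i u + 1) := by rw [pow_succ]
          _ ≤ 4 ^ (p i v) := pow_le_pow_right₀ (by norm_num) h3
          _ = 1 * P i v := by rw [one_mul]
      have k0 := key 0
      have k1 := key 1
      have k2 := key 2
      exact mul_pos (hP 2 v) (by linarith)
    · intro hn
      rw [not_forall] at hn
      obtain ⟨i, hi⟩ := hn
      have key : 1 ≤ P i u / P i v := by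
        rw [le_div_iff₀ (hP i v), one_mul]
        exact pow_le_pow_right₀ (by norm_num) (not_lt.1 hi)
      have k0 : 0 < P 0 u / P 0 v := div_pos (hP 0 u) (hP 0 v)
      have k1 : 0 < P 1 u / P 1 v := div_pos (hP 1 u) (hP 1 v)
      have k2 : 0 < P 2 u / P 2 v := div_pos (hP 2 u) (hP 2 v)
      refine mul_neg_of_pos_of_neg (hP 2 v) ?_
      fin_cases i <;> simp only [Fin.zero_eta, Fin.mk_one, Fin.reduceFinMk] at key <;> linarith
  -- the choice of the scale
  have hε : ∃ ε : ℝ, 0 < ε ∧ (∀ u v, ε ^ 2 * ((a u - a v) ^ 2 + (b u - b v) ^ 2) ≤ 2) ∧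
      (∀ u v, ε ^ 2 * (ε ^ 2 * (A u - A v) ^ 2) ≤ 2) ∧
      (∀ u v, 0 < Q u v → ε ^ 2 * (A u + A v) ^ 2 ≤ Q u v) := by
    have h1 : ∀ᶠ ε : ℝ in 𝓝[>] (0 : ℝ), 0 < ε := eventually_mem_nhdsWithin
    have h2 : ∀ᶠ ε : ℝ in 𝓝[>] (0 : ℝ), ∀ u v, ε ^ 2 * ((a u - a v) ^ 2 + (b u - b v) ^ 2) ≤ 2 := by
      rw [eventually_all]
      intro u
      rw [eventually_all]
      intro v
      exact eventually_small _ _ (by norm_num)
    have h3 : ∀ᶠ ε : ℝ in 𝓝[>] (0 : ℝ), ∀ u v, ε ^ 2 * (A u - A v) ^ 2 ≤ 1 := by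
      rw [eventually_all]
      intro u
      rw [eventually_all]
      intro v
      exact eventually_small _ _ (by norm_num)
    have h4 : ∀ᶠ ε : ℝ in 𝓝[>] (0 : ℝ), ∀ u v, 0 < Q u v → ε ^ 2 * (A u + A v) ^ 2 ≤ Q u v := by
      rw [eventually_all]
      intro u
      rw [eventually_all]
      intro v
      by_cases hq : 0 < Q u v
      · exact (eventually_small _ _ hq).mono fun _ h _ => h
      · exact Eventually.of_forall fun _ h => absurd h hq
    have h5 : ∀ᶠ ε : ℝ in 𝓝[>] (0 : ℝ), ε ^ 2 * 1 ≤ 1 := eventually_small _ _ one_pos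
    obtain ⟨ε, ⟨⟨⟨h1, h2⟩, h3⟩, h4⟩, h5⟩ := ((((h1.and h2).and h3).and h4).and h5).exists
    refine ⟨ε, h1, h2, fun u v => ?_, h4⟩
    have h6 := h3 u v
    have h7 : 0 ≤ ε ^ 2 := sq_nonneg _
    have h8 : 0 ≤ ε ^ 2 * (A u - A v) ^ 2 := by positivity
    nlinarith
  obtain ⟨ε, hε0, hε1, hε2, hε3⟩ := hε
  refine h.realise (fun v => if low v then !₂[ε ^ 2 * A v, ε * a v, ε * b v]
    else !₂[2 - ε ^ 2 * A v, ε * a v, ε * b v]) ?_ ?_
  · intro u v huv
    have e2 := hε2 u v
    have e1 := hε1 u v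
    by_cases hu : low u
    · rw [if_pos hu, if_pos (huv.1 hu), EuclideanSpace.dist_eq, Real.sqrt_le_left (by norm_num)]
      simp only [Fin.sum_univ_three, Real.dist_eq, sq_abs]
      simp
      nlinarith
    · rw [if_neg hu, if_neg (fun h => hu (huv.2 h)), EuclideanSpace.dist_eq,
        Real.sqrt_le_left (by norm_num)]
      simp only [Fin.sum_univ_three, Real.dist_eq, sq_abs]
      simp
      nlinarith
  · intro u v hu hv
    obtain ⟨q1, q2⟩ := hQ u v hu hv
    have key : dist (!₂[ε ^ 2 * A u, ε * a u, ε * b u] : EuclideanSpace ℝ (Fin 3))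
        !₂[2 - ε ^ 2 * A v, ε * a v, ε * b v] ≤ 2 ↔ ε ^ 2 * (A u + A v) ^ 2 ≤ Q u v := by
      rw [EuclideanSpace.dist_eq, Real.sqrt_le_left (by norm_num)]
      simp only [Fin.sum_univ_three, Real.dist_eq, sq_abs]
      have e : (ε ^ 2 * A u - (2 - ε ^ 2 * A v)) ^ 2 + (ε * a u - ε * a v) ^ 2 +
          (ε * b u - ε * b v) ^ 2 = 4 + ε ^ 2 * (ε ^ 2 * (A u + A v) ^ 2 - Q u v) := by
        simp only [A, Q]
        ring
      have e' : ((!₂[ε ^ 2 * A u, ε * a u, ε * b u] : EuclideanSpace ℝ (Fin 3)) 0 -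
          (!₂[2 - ε ^ 2 * A v, ε * a v, ε * b v] : EuclideanSpace ℝ (Fin 3)) 0) ^ 2 +
          ((!₂[ε ^ 2 * A u, ε * a u, ε * b u] : EuclideanSpace ℝ (Fin 3)) 1 -
          (!₂[2 - ε ^ 2 * A v, ε * a v, ε * b v] : EuclideanSpace ℝ (Fin 3)) 1) ^ 2 +
          ((!₂[ε ^ 2 * A u, ε * a u, ε * b u] : EuclideanSpace ℝ (Fin 3)) 2 -
          (!₂[2 - ε ^ 2 * A v, ε * a v, ε * b v] : EuclideanSpace ℝ (Fin 3)) 2) ^ 2 =
          (ε ^ 2 * A u - (2 - ε ^ 2 * A v)) ^ 2 + (ε * a u - ε * a v) ^ 2 +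
          (ε * b u - ε * b v) ^ 2 := rfl
      rw [e', e]
      have h7 : 0 < ε ^ 2 := by positivity
      constructor
      · intro h8
        have h9 : ε ^ 2 * (ε ^ 2 * (A u + A v) ^ 2 - Q u v) ≤ 0 := by linarith
        have h10 := nonpos_of_mul_nonpos_right h9 h7
        linarith
      · intro h8
        have h9 : ε ^ 2 * (ε ^ 2 * (A u + A v) ^ 2 - Q u v) ≤ 0 :=
          mul_nonpos_of_nonneg_of_nonpos h7.le (by linarith)
        linarith
    rw [if_pos hu, if_neg hv, key]
    constructor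
    · intro h3
      by_contra hc
      have h4 := q2 hc
      have h5 : 0 ≤ ε ^ 2 * (A u + A v) ^ 2 := by positivity
      linarith
    · intro h3
      exact hε3 u v (q1 h3)

end Pool.Agent.J4.H79.GI
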