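import Pool.Agent.J4.H79.GI.BallGeom
import Pool.Agent.Y815.GI.Red

/-!
# Two cliques instead of two independent sets
-/

set_option autoImplicit false

namespace Pool.Agent.J4.H79.GI

open Pool.Agent.NPC Pool.Agent.NPC.R671 Pool.Agent.W125.Dim Pool.Agent.Y815.GI
open Pool.Agent.W125.Dim.Vtx

variable {U W : Type} {A : U → W → Prop} {R : ℕ}

/-- the lower elements of the order of height two -/
def Low : Vtx A R → Prop
  | u _ => False
  | w _ => True
  | c l _ => (l : ℕ) % 2 = 0

theorem Rel_low {x y : Vtx A R} (h : Rel x y) : Low x ∧ ¬ Low y := by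
  match x, y, h with
  | c l e, c k f, h =>
    show (l : ℕ) % 2 = 0 ∧ ¬ (k : ℕ) % 2 = 0
    rcases h with ⟨h1, h2, h3 | h3⟩ | ⟨h1, h2⟩ <;> omega
  | c l e, u x, ⟨h0, h1⟩ =>
    refine ⟨?_, id⟩
    show (l : ℕ) % 2 = 0
    omega
  | w y, c l e, ⟨h0, h1⟩ =>
    refine ⟨trivial, ?_⟩
    show ¬ (l : ℕ) % 2 = 0
    omega

/-- the graph with two cliques -/
def BG (A : U → W → Prop) (R : ℕ) : SimpleGraph (Vtx A R) where
  Adj x y := x ≠ y ∧ ((Low x ↔ Low y) ∨ (XG A R).Adj x y)
  symm := ⟨fun _ _ h => ⟨h.1.symm, h.2.imp Iff.symm SimpleGraph.Adj.symm⟩⟩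
  loopless := ⟨fun _ h => h.1 rfl⟩

theorem XG_adj_not_same {x y : Vtx A R} (h : (XG A R).Adj x y) : ¬ (Low x ↔ Low y) := by
  rcases h with h | h
  · have := Rel_low h; tauto
  · have := Rel_low h; tauto

theorem XG_iff_BG (x y : Vtx A R) :
    (XG A R).Adj x y ↔ (BG A R).Adj x y ∧ ¬ (Low x ↔ Low y) := by
  constructor
  · intro h
    exact ⟨⟨h.ne, Or.inr h⟩, XG_adj_not_same h⟩
  · rintro ⟨⟨-, h⟩, h'⟩
    exact h.resolve_left h'

/-- three different strands -/
def Three (A : U → W → Prop) : Prop := ∃ e f g : Inc A, e ≠ f ∧ e ≠ g ∧ f ≠ g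

/-- a lower vertex is adjacent to at most one of the vertices `c 1 f` -/
theorem low_one {x : Vtx A R} (hx : Low x) (hR : 0 < R) {f g : Inc A}
    (h1 : (XG A R).Adj x (c ⟨1, by omega⟩ f)) (h2 : (XG A R).Adj x (c ⟨1, by omega⟩ g)) :
    f = g := by
  have h1' : Rel x (c ⟨1, by omega⟩ f) := h1.resolve_right fun h => (Rel_low h).2 hx
  have h2' : Rel x (c ⟨1, by omega⟩ g) := h2.resolve_right fun h => (Rel_low h).2 hx
  match x, h1', h2' with
  | c l e, h1', h2' =>
    rcases h1' with ⟨_, h, _⟩ | ⟨_, h⟩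
    · rcases h2' with ⟨_, h', _⟩ | ⟨_, h'⟩
      · rw [← h, ← h']
      · simp only at h'; omega
    · simp only at h; omega
  | w y, ⟨h0, _⟩, _ => simp only at h0; omega

/-- an upper vertex is adjacent to at most one of the vertices `c 2 f` -/
theorem up_two {x : Vtx A R} (hx : ¬ Low x) (hR : 0 < R) {f g : Inc A}
    (h1 : (XG A R).Adj (c ⟨2, by omega⟩ f) x) (h2 : (XG A R).Adj (c ⟨2, by omega⟩ g) x) :
    f = g := by
  have h1' : Rel (c ⟨2, by omega⟩ f) x := h1.resolve_right fun h => hx (Rel_low h).1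
  have h2' : Rel (c ⟨2, by omega⟩ g) x := h2.resolve_right fun h => hx (Rel_low h).1
  match x, h1', h2' with
  | c l e, h1', h2' =>
    rcases h1' with ⟨_, h, _⟩ | ⟨h, _⟩
    · rcases h2' with ⟨_, h', _⟩ | ⟨h', _⟩
      · rw [h, h']
      · simp only at h'; omega
    · simp only at h; omega
  | u y, ⟨h0, _⟩, _ => simp only at h0; omega

/-- The two parts are determined by the graph. -/
theorem same_iff_BG (hR : 0 < R) (h3 : Three A) (x y : Vtx A R) (hne : x ≠ y) :
    (Low x ↔ Low y) ↔ ∃ z, z ≠ x ∧ z ≠ y ∧ ¬ (BG A R).Adj z x ∧ ¬ (BG A R).Adj z y := by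
  constructor
  · intro h
    obtain ⟨e, f, g, hef, heg, hfg⟩ := h3
    -- a vertex of the other part which is adjacent to neither of them
    have key : ∃ z : Vtx A R, ¬ (Low z ↔ Low x) ∧ ¬ (XG A R).Adj z x ∧ ¬ (XG A R).Adj z y := by
      by_cases hx : Low x
      · have hy := h.1 hx
        have hz : ∀ f : Inc A, ¬ (Low (c ⟨1, by omega⟩ f : Vtx A R) ↔ Low x) := fun f hh =>
          absurd (hh.2 hx) (by show ¬ (1 : ℕ) % 2 = 0; omega)
        by_contra hc
        have k : ∀ f : Inc A, (XG A R).Adj x (c ⟨1, by omega⟩ f) ∨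
            (XG A R).Adj y (c ⟨1, by omega⟩ f) := by
          intro f
          by_contra h1
          rw [not_or] at h1
          exact hc ⟨_, hz f, fun h => h1.1 h.symm, fun h => h1.2 h.symm⟩
        rcases k e with a | a <;> rcases k f with b | b <;> rcases k g with d | d
        · exact hef (low_one hx hR a b)
        · exact hef (low_one hx hR a b)
        · exact heg (low_one hx hR a d)
        · exact hfg (low_one hy hR b d)
        · exact hfg (low_one hx hR b d)
        · exact heg (low_one hy hR a d)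
        · exact hef (low_one hy hR a b)
        · exact hef (low_one hy hR a b)
      · have hy : ¬ Low y := fun hy => hx (h.2 hy)
        have hz : ∀ f : Inc A, ¬ (Low (c ⟨2, by omega⟩ f : Vtx A R) ↔ Low x) := fun f hh =>
          hx (hh.1 (show (2 : ℕ) % 2 = 0 by omega))
        by_contra hc
        have k : ∀ f : Inc A, (XG A R).Adj (c ⟨2, by omega⟩ f) x ∨
            (XG A R).Adj (c ⟨2, by omega⟩ f) y := by
          intro f
          by_contra h1
          rw [not_or] at h1
          exact hc ⟨_, hz f, h1.1, h1.2⟩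
        rcases k e with a | a <;> rcases k f with b | b <;> rcases k g with d | d
        · exact hef (up_two hx hR a b)
        · exact hef (up_two hx hR a b)
        · exact heg (up_two hx hR a d)
        · exact hfg (up_two hy hR b d)
        · exact hfg (up_two hx hR b d)
        · exact heg (up_two hy hR a d)
        · exact hef (up_two hy hR a b)
        · exact hef (up_two hy hR a b)
    obtain ⟨z, h1, h2, h3⟩ := key
    refine ⟨z, ?_, ?_, ?_, ?_⟩
    · rintro rfl; exact h1 Iff.rfl
    · rintro rfl; exact h1 h.symm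
    · rintro ⟨-, h4 | h4⟩
      · exact h1 h4
      · exact h2 h4
    · rintro ⟨-, h4 | h4⟩
      · exact h1 (h4.trans h.symm)
      · exact h3 h4
  · rintro ⟨z, h1, h2, h4, h5⟩
    by_contra hc
    by_cases h6 : Low z ↔ Low x
    · exact h4 ⟨h1, Or.inl h6⟩
    · exact h5 ⟨h2, Or.inl (by tauto)⟩

section
variable {U' W' : Type} {A' : U' → W' → Prop}

/-- An isomorphism of the graphs with cliques is an isomorphism of the bipartite graphs. -/
def toXG (hR : 0 < R) (h : Three A) (h' : Three A') (φ : BG A R ≃g BG A' R) :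
    XG A R ≃g XG A' R where
  toEquiv := φ.toEquiv
  map_rel_iff' := by
    intro x y
    show (XG A' R).Adj (φ x) (φ y) ↔ (XG A R).Adj x y
    by_cases hxy : x = y
    · subst hxy
      simp
    · rw [XG_iff_BG, XG_iff_BG, φ.map_adj_iff, same_iff_BG hR h x y hxy,
        same_iff_BG hR h' (φ x) (φ y) (fun hc => hxy (φ.injective hc))]
      refine and_congr Iff.rfl (not_congr ?_)
      constructor
      · rintro ⟨z, h1, h2, h3, h4⟩
        refine ⟨φ.symm z, ?_, ?_, ?_, ?_⟩
        · rintro rfl; exact h1 (φ.apply_symm_apply z).symm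
        · rintro rfl; exact h2 (φ.apply_symm_apply z).symm
        · rw [← φ.map_adj_iff, φ.apply_symm_apply]; exact h3
        · rw [← φ.map_adj_iff, φ.apply_symm_apply]; exact h4
      · rintro ⟨z, h1, h2, h3, h4⟩
        refine ⟨φ z, fun hc => h1 (φ.injective hc), fun hc => h2 (φ.injective hc), ?_, ?_⟩
        · rw [φ.map_adj_iff]; exact h3
        · rw [φ.map_adj_iff]; exact h4

theorem low_mapV (α : U → U') (β : W → W') (h : ∀ x y, A x y → A' (α x) (β y)) (v : Vtx A R) :
    Low (mapV α β h v) ↔ Low v := by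
  match v with
  | u x => exact Iff.rfl
  | w x => exact Iff.rfl
  | c l e => exact Iff.rfl

/-- The converse for the isomorphisms which come from the incidence relations. -/
def ofXG (α : U ≃ U') (β : W ≃ W') (h : ∀ x y, A x y ↔ A' (α x) (β y)) :
    BG A R ≃g BG A' R where
  toEquiv := (mapIso α β h).toEquiv
  map_rel_iff' := by
    intro x y
    have h1 : (XG A' R).Adj (mapV α β (fun x y => (h x y).1) x) (mapV α β (fun x y => (h x y).1) y) ↔
        (XG A R).Adj x y := (mapIso α β h : XG A R ≃g XG A' R).map_adj_iff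
    have h2 : mapV α β (fun x y => (h x y).1) x = mapV α β (fun x y => (h x y).1) y ↔ x = y :=
      (mapIso α β h : XG A R ≃g XG A' R).injective.eq_iff
    show (mapV α β (fun x y => (h x y).1) x ≠ mapV α β (fun x y => (h x y).1) y ∧ _) ↔ _
    exact and_congr (not_congr h2) (or_congr (iff_congr (low_mapV α β (fun x y => (h x y).1) x)
      (low_mapV α β (fun x y => (h x y).1) y)) h1)

end

/-- The graph is given by three functions. -/
theorem BG_keyed [Finite U] [Finite W] (N : Num U W R) :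
    ∃ p : Fin 3 → Vtx A R → ℕ, Keyed (BG A R) Low p := by
  choose p hp using fun i : Fin 3 =>
    exists_rank (V := Vtx A R) (fun x => tl ((![K1 N, K2 N, K3 N] : Fin 3 → Vtx A R → _) i x))
  refine ⟨p, ⟨fun x y hne h => ⟨hne, Or.inl h⟩, fun x y hx hy => ?_⟩⟩
  have hne : x ≠ y := by
    rintro rfl
    exact hy hx
  constructor
  · rintro ⟨-, h | h⟩
    · exact absurd (h.1 hx) hy
    · have h' : Rel x y := h.resolve_right fun h => hy (Rel_low h).1
      obtain ⟨h1, h2, h3⟩ := key_rel N x y h'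
      intro i
      rw [hp]
      fin_cases i
      · exact tl_lt h1
      · exact tl_lt h2
      · exact tl_lt h3
  · intro h
    refine ⟨hne, Or.inr (Or.inl ?_)⟩
    by_contra hc
    rcases key_nrel N x y hne hc with h1 | h1 | h1
    · have h2 := (hp 0 x y).1 (h 0)
      exact lt_asymm h2 (tl_lt h1)
    · have h2 := (hp 1 x y).1 (h 1)
      exact lt_asymm h2 (tl_lt h1)
    · have h2 := (hp 2 x y).1 (h 2)
      exact lt_asymm h2 (tl_lt h1)

/-- the three properties of the class, for an arbitrary vertex type -/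
def Good {V : Type} (X : SimpleGraph V) : Prop :=
  CoBipartite X ∧ IsUnitBallGraph (EuclideanSpace ℝ (Fin 3)) X ∧ IsUnitBallGraph (Fin 3 → ℝ) X

theorem BG_good [Finite U] [Finite W] (N : Num U W R) : Good (BG A R) := by
  obtain ⟨p, hp⟩ := BG_keyed (A := A) N
  exact ⟨hp.cobip, hp.ball, hp.cube⟩

theorem IsUnitBallGraph.of_iso {E : Type} [PseudoMetricSpace E] {V V' : Type} {X : SimpleGraph V}
    {X' : SimpleGraph V'} (φ : X' ≃g X) (h : IsUnitBallGraph E X) : IsUnitBallGraph E X' := by
  obtain ⟨z, hz⟩ := h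
  refine ⟨fun v => z (φ v), fun u v => ?_⟩
  rw [← φ.map_adj_iff, hz]
  exact and_congr (not_congr φ.injective.eq_iff) Iff.rfl

theorem Good.of_iso {V V' : Type} {X : SimpleGraph V} {X' : SimpleGraph V'} (φ : X' ≃g X)
    (h : Good X) : Good X' := by
  obtain ⟨⟨s, hs⟩, h2, h3⟩ := h
  refine ⟨⟨φ ⁻¹' s, fun u v hne h => ?_⟩, h2.of_iso φ, h3.of_iso φ⟩
  rw [← φ.map_adj_iff]
  exact hs _ _ (fun hc => hne (φ.injective hc)) h

end Pool.Agent.J4.H79.GI
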