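import Pool.Agent.J4.H79.GI.BallGraph

/-!
# The reduction to two-clique graphs
-/

set_option autoImplicit false

namespace Pool.Agent.J4.H79.GI

open Pool.Agent.NPC Pool.Agent.NPC.R671 Pool.Agent.W125.Dim Pool.Agent.Y815.GI

theorem three_AX {n : ℕ} (hn : 2 ≤ n) (X : SimpleGraph (Fin n)) : Three (AX X) := by
  refine ⟨⟨(⟨0, by omega⟩, (⟨0, by omega⟩, ⟨0, by omega⟩)), Or.inl rfl⟩,
    ⟨(⟨0, by omega⟩, (⟨0, by omega⟩, ⟨1, by omega⟩)), Or.inl rfl⟩,
    ⟨(⟨1, by omega⟩, (⟨1, by omega⟩, ⟨1, by omega⟩)), Or.inl rfl⟩, ?_, ?_, ?_⟩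
  · intro h
    have h1 := congrArg (fun z : Inc (AX X) => (z.1.2.2 : ℕ)) h
    simp at h1
  · intro h
    have h1 := congrArg (fun z : Inc (AX X) => (z.1.1 : ℕ)) h
    simp at h1
  · intro h
    have h1 := congrArg (fun z : Inc (AX X) => (z.1.1 : ℕ)) h
    simp at h1

/-- Isomorphism of graphs and of the constructions. -/
theorem iso_iff_BG {n : ℕ} (hn : 2 ≤ n) (X Y : SimpleGraph (Fin n)) {R : ℕ} (hR : 0 < R) :
    Nonempty (X ≃g Y) ↔ Nonempty (BG (AX X) R ≃g BG (AX Y) R) := by
  constructor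
  · rintro ⟨φ⟩
    refine ⟨ofXG φ.toEquiv (Equiv.prodCongr φ.toEquiv φ.toEquiv) fun x p => ?_⟩
    show _ ↔ (φ x = φ p.1 ∨ (φ x = φ p.2 ∧ Y.Adj (φ p.1) (φ p.2)))
    rw [φ.injective.eq_iff, φ.injective.eq_iff, φ.map_adj_iff]
    exact Iff.rfl
  · rintro ⟨ψ⟩
    exact (iso_iff X Y hR).2 ⟨toXG hR (three_AX hn X) (three_AX hn Y) ψ⟩

/-! ### The computation -/

/-- the lower labels -/
def lowB (a : Lb) : Bool := decide (a.1 = 1) || (decide (a.1 = 2) && decide (a.2.1 % 2 = 0))

/-- adjacency -/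
def adK (R : ℕ) (a b : Lb) : Bool :=
  !(decide (a = b)) && (((lowB a && lowB b) || (!(lowB a) && !(lowB b))) || adB R a b)

/-- the output matrix -/
def outK (M : List (List Bool)) : List (List Bool) :=
  (verts M).map (fun u => (verts M).map (fun w => adK (RR M.length) u w))

theorem adK_symm (R : ℕ) (a b : Lb) : adK R a b = adK R b a := by
  unfold adK
  rw [adB_symm, Bool.and_comm (lowB a), Bool.and_comm (!(lowB a))]
  congr 2
  exact decide_eq_decide.2 eq_comm

theorem adK_irrefl (R : ℕ) (a : Lb) : adK R a a = false := by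
  simp [adK]

section

variable {n : ℕ} (X : SimpleGraph (Fin n)) (R : ℕ)

theorem lowB_code (a : Vtx (AX X) R) : lowB (code X R a) = true ↔ Low a := by
  match a with
  | Vtx.u x => simp [lowB, code, Low]
  | Vtx.w p => simp [lowB, code, Low]
  | Vtx.c l e =>
    show lowB _ = true ↔ (l : ℕ) % 2 = 0
    exact (show (decide ((2 : ℕ) = 1) || (decide ((2 : ℕ) = 2) && decide ((l : ℕ) % 2 = 0))) = true ↔
      (l : ℕ) % 2 = 0 by simp)

theorem adK_code (a b : Vtx (AX X) R) :
    adK R (code X R a) (code X R b) = true ↔ (BG (AX X) R).Adj a b := by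
  show _ ↔ (a ≠ b ∧ ((Low a ↔ Low b) ∨ (XG (AX X) R).Adj a b))
  unfold adK
  rw [Bool.and_eq_true, Bool.or_eq_true, Bool.or_eq_true, Bool.and_eq_true, Bool.and_eq_true,
    adB_code, lowB_code, lowB_code, Bool.not_eq_true', Bool.not_eq_true', Bool.not_eq_true',
    decide_eq_false_iff_not, (code_inj X R).eq_iff]
  have h1 : lowB (code X R a) = false ↔ ¬ Low a := by
    rw [← lowB_code X R a, Bool.not_eq_true]
  have h2 : lowB (code X R b) = false ↔ ¬ Low b := by
    rw [← lowB_code X R b, Bool.not_eq_true]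
  rw [h1, h2]
  tauto

end

/-- The output is the adjacency matrix of a graph isomorphic to the construction. -/
theorem outK_eq {n : ℕ} (X : SimpleGraph (Fin n)) : ∃ (N : ℕ) (X' : SimpleGraph (Fin N)),
    adjMatrix X' = outK (adjMatrix X) ∧ Nonempty (X' ≃g BG (AX X) (RR n)) := by
  obtain ⟨e, he⟩ := exists_equiv (verts (adjMatrix X)) (nodup_verts _) (code X (RR n))
    (code_inj X (RR n)) (mem_verts X)
  refine ⟨_, listGraph (verts (adjMatrix X)) (adK (RR n)) (adK_symm _) (adK_irrefl _), ?_, ⟨⟨e, ?_⟩⟩⟩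
  · rw [adjMatrix_listGraph]
    unfold outK
    rw [length_adjMatrix]
  · intro a b
    rw [← adK_code, he, he]
    exact Iff.rfl

theorem good_BG {n : ℕ} (X : SimpleGraph (Fin n)) : Good (BG (AX X) (RR n)) := by
  obtain ⟨N⟩ := exists_num (U := Fin n) (W := Fin n × Fin n) (R := RR n) (by
    rw [Nat.card_prod, Nat.card_eq_fintype_card, Fintype.card_fin]
    exact Nat.le_succ _)
  exact BG_good N

/-- small graphs -/
theorem good_small {n : ℕ} (X : SimpleGraph (Fin n)) (hn : n ≤ 1) : BallClass X := by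
  have key : ∀ u v : Fin n, u = v := fun u v => Fin.ext (by omega)
  refine ⟨⟨Set.univ, fun u v hne => absurd (key u v) hne⟩, ⟨fun _ => 0, fun u v => ?_⟩,
    ⟨fun _ => 0, fun u v => ?_⟩⟩
  · exact ⟨fun h => absurd (key u v) h.ne, fun h => absurd (key u v) h.1⟩
  · exact ⟨fun h => absurd (key u v) h.ne, fun h => absurd (key u v) h.1⟩

/-- the reduction -/
def redK (p : List (List Bool) × List (List Bool)) : List (List Bool) × List (List Bool) :=
  if (valid p.1 = true ∧ valid p.2 = true) ∧ p.1.length = p.2.length then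
    (if 2 ≤ p.1.length then (outK p.1, outK p.2) else ([], []))
  else ([], [[false]])

theorem graphIso_iff {n : ℕ} (X Y : SimpleGraph (Fin n)) :
    GraphIso (adjMatrix X, adjMatrix Y) ↔ Nonempty (X ≃g Y) := by
  constructor
  · rintro ⟨n', m', X₁, Y₁, e1, e2, h⟩
    have hn' : n' = n := by
      rw [← length_adjMatrix X₁, e1, length_adjMatrix]
    have hm' : m' = n := by
      rw [← length_adjMatrix Y₁, e2, length_adjMatrix]
    subst hn'
    subst hm'
    rw [adjMatrix_inj e1, adjMatrix_inj e2] at h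
    exact h
  · intro h
    exact ⟨n, n, X, Y, rfl, rfl, h⟩

theorem redK_spec (p : List (List Bool) × List (List Bool)) :
    ∃ (N M : ℕ) (X' : SimpleGraph (Fin N)) (Y' : SimpleGraph (Fin M)),
      redK p = (adjMatrix X', adjMatrix Y') ∧ BallClass X' ∧ BallClass Y' ∧
        (GraphIso p ↔ Nonempty (X' ≃g Y')) := by
  by_cases h : (valid p.1 = true ∧ valid p.2 = true) ∧ p.1.length = p.2.length
  · obtain ⟨p1, p2⟩ := p
    obtain ⟨⟨h1, h2⟩, h3⟩ := h
    rw [valid_iff] at h1 h2
    obtain ⟨n, X, rfl⟩ := h1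
    obtain ⟨m, Y, rfl⟩ := h2
    rw [length_adjMatrix, length_adjMatrix] at h3
    subst h3
    have hval : (valid (adjMatrix X, adjMatrix Y).1 = true ∧
        valid (adjMatrix X, adjMatrix Y).2 = true) ∧
        (adjMatrix X, adjMatrix Y).1.length = (adjMatrix X, adjMatrix Y).2.length :=
      ⟨⟨(valid_iff _).2 ⟨n, X, rfl⟩, (valid_iff _).2 ⟨n, Y, rfl⟩⟩, by
        rw [length_adjMatrix, length_adjMatrix]⟩
    by_cases hn : 2 ≤ n
    · obtain ⟨N, X', hX', ⟨φ⟩⟩ := outK_eq X
      obtain ⟨M, Y', hY', ⟨ψ⟩⟩ := outK_eq Y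
      refine ⟨N, M, X', Y', ?_, (good_BG X).of_iso φ, (good_BG Y).of_iso ψ, ?_⟩
      · unfold redK
        rw [if_pos hval, if_pos (by rw [length_adjMatrix]; exact hn), hX', hY']
      · rw [graphIso_iff, iso_iff_BG hn X Y (R := RR n) (Nat.succ_pos _)]
        constructor
        · rintro ⟨χ⟩
          exact ⟨φ.trans (χ.trans ψ.symm)⟩
        · rintro ⟨χ⟩
          exact ⟨φ.symm.trans (χ.trans ψ)⟩
    · refine ⟨0, 0, ⊥, ⊥, ?_, good_small _ (by norm_num), good_small _ (by norm_num), ?_⟩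
      · unfold redK
        rw [if_pos hval, if_neg (by rw [length_adjMatrix]; exact hn)]
        simp [adjMatrix]
      · rw [graphIso_iff]
        have key : ∀ u v : Fin n, u = v := fun u v => Fin.ext (by omega)
        refine ⟨fun _ => ⟨SimpleGraph.Iso.refl⟩, fun _ => ⟨⟨Equiv.refl _, fun {a b} => ?_⟩⟩⟩
        exact ⟨fun h => absurd (key _ _) h.ne, fun h => absurd (key _ _) h.ne⟩
  · refine ⟨0, 1, ⊥, ⊥, ?_, good_small _ (by norm_num), good_small _ le_rfl, ?_⟩
    · unfold redK
      rw [if_neg h]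
      simp [adjMatrix]
    · constructor
      · rintro ⟨n, m, X, Y, h1, h2, ⟨φ⟩⟩
        exfalso
        apply h
        refine ⟨⟨(valid_iff _).2 ⟨n, X, h1⟩, (valid_iff _).2 ⟨m, Y, h2⟩⟩, ?_⟩
        rw [← h1, ← h2, length_adjMatrix, length_adjMatrix]
        have := Fintype.card_congr φ.toEquiv
        simpa using this
      · rintro ⟨φ⟩
        exact (φ.symm 0).elim0

/-! ### Polynomial time -/

section

variable {α : Type} [TEnc α]

@[fun_prop]
theorem poly_lowB {a : α → Lb} (ha : Poly a) : Poly (fun x => lowB (a x)) := by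
  unfold lowB
  fun_prop

@[fun_prop]
theorem poly_adK {R : α → ℕ} {a b : α → Lb} (hR : Poly R) (ha : Poly a) (hb : Poly b) :
    Poly (fun x => adK (R x) (a x) (b x)) := by
  unfold adK
  fun_prop

@[fun_prop]
theorem poly_outK {f : α → List (List Bool)} (hf : Poly f) : Poly (fun a => outK (f a)) := by
  unfold outK
  fun_prop

end

theorem poly_redK : Poly redK := by
  unfold redK
  fun_prop

/-- The reduction on bit strings. -/
def redKBits (x : List Bool) : List (List Bool) × List (List Bool) :=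
  (unbits (List (List Bool) × List (List Bool)) x).elim ([], [[false]]) redK

theorem poly_redKBits : Poly redKBits := by
  unfold redKBits
  exact NPC.Poly.optElim poly_unbits (NPC.Poly.const _) (poly_redK.comp (NPC.Poly.snd NPC.Poly.id))

theorem redKBits_spec (x : List Bool) :
    ∃ (N M : ℕ) (X' : SimpleGraph (Fin N)) (Y' : SimpleGraph (Fin M)),
      redKBits x = (adjMatrix X', adjMatrix Y') ∧ BallClass X' ∧ BallClass Y' ∧
        (x ∈ lang GraphIso ↔ Nonempty (X' ≃g Y')) := by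
  unfold redKBits
  rw [mem_lang_iff]
  cases h : unbits (List (List Bool) × List (List Bool)) x with
  | none =>
    refine ⟨0, 1, ⊥, ⊥, ?_, good_small _ (by norm_num), good_small _ le_rfl, ?_⟩
    · simp [adjMatrix]
    · constructor
      · rintro ⟨a, ha, _⟩
        exact absurd ha (by simp)
      · rintro ⟨φ⟩
        exact (φ.symm 0).elim0
  | some p =>
    obtain ⟨N, M, X', Y', h1, h2, h3, h4⟩ := redK_spec p
    refine ⟨N, M, X', Y', h1, h2, h3, ?_⟩
    rw [← h4]
    constructor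
    · rintro ⟨a, ha, h5⟩
      rw [Option.some.inj ha]
      exact h5
    · intro h5
      exact ⟨p, rfl, h5⟩

/-- The graph isomorphism problem reduces in polynomial time to the isomorphism problem of graphs
of the class. -/
theorem main : ∃ f : List Bool → List Bool, PolyTime f ∧ ∀ x : List Bool,
    ∃ (N M : ℕ) (X' : SimpleGraph (Fin N)) (Y' : SimpleGraph (Fin M)),
      f x = bits (adjMatrix X', adjMatrix Y') ∧ BallClass X' ∧ BallClass Y' ∧
        (x ∈ lang GraphIso ↔ Nonempty (X' ≃g Y')) := by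
  refine ⟨fun x => bits (redKBits x), polyTime_bits poly_redKBits, fun x => ?_⟩
  obtain ⟨N, M, X', Y', h1, h2, h3, h4⟩ := redKBits_spec x
  exact ⟨N, M, X', Y', congrArg bits h1, h2, h3, h4⟩

/-- The yes-instances of the restricted problem. -/
theorem bits_mem_class (C : ∀ n : ℕ, SimpleGraph (Fin n) → Prop) {N M : ℕ}
    (X : SimpleGraph (Fin N)) (Y : SimpleGraph (Fin M)) (hX : C N X) (hY : C M Y) :
    bits (adjMatrix X, adjMatrix Y) ∈ lang (ClassIso C) ↔ Nonempty (X ≃g Y) := by
  rw [bits_mem_lang]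
  constructor
  · rintro ⟨n', m', X₁, Y₁, e1, e2, -, -, h⟩
    have hn' : n' = N := by
      rw [← length_adjMatrix X₁, e1, length_adjMatrix]
    have hm' : m' = M := by
      rw [← length_adjMatrix Y₁, e2, length_adjMatrix]
    subst hn'
    subst hm'
    rw [adjMatrix_inj e1, adjMatrix_inj e2] at h
    exact h
  · intro h
    exact ⟨N, M, X, Y, rfl, rfl, hX, hY, h⟩

/-- The reduction works for every class which contains the graphs of `BallClass`. -/
theorem reduces (C : ∀ n : ℕ, SimpleGraph (Fin n) → Prop)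
    (hC : ∀ (n : ℕ) (X : SimpleGraph (Fin n)), BallClass X → C n X) :
    Reduces (lang GraphIso) (lang (ClassIso C)) := by
  obtain ⟨f, hf, h⟩ := main
  refine ⟨f, hf, fun x => ?_⟩
  obtain ⟨N, M, X', Y', h1, h2, h3, h4⟩ := h x
  rw [h4, h1, bits_mem_class C X' Y' (hC _ _ h2) (hC _ _ h3)]

/-- Membership in `P` of the isomorphism problem restricted to the class, as a promise problem. -/
theorem inP_iff : InP (lang GraphIso) ↔ ∃ L : Set (List Bool), InP L ∧
    ∀ (N M : ℕ) (X : SimpleGraph (Fin N)) (Y : SimpleGraph (Fin M)), BallClass X → BallClass Y →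
      (bits (adjMatrix X, adjMatrix Y) ∈ L ↔ Nonempty (X ≃g Y)) := by
  constructor
  · intro h
    exact ⟨_, h, fun N M X Y _ _ => bits_mem X Y⟩
  · rintro ⟨L, hL, h⟩
    obtain ⟨f, hf, h'⟩ := main
    refine InP.of_reduces ⟨f, hf, fun x => ?_⟩ hL
    obtain ⟨N, M, X', Y', h1, h2, h3, h4⟩ := h' x
    rw [h4, h1, h N M X' Y' h2 h3]

end Pool.Agent.J4.H79.GI
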