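import Pool.Agent.J4.H79.GI.BallRed

/-!
# Unit balls with centres near to two points, hence near to a line
-/

set_option autoImplicit false

namespace Pool.Agent.J4.H79.GI

open Filter Topology Pool.Agent.NPC Pool.Agent.NPC.R671 Pool.Agent.W125.Dim Pool.Agent.Y815.GI

/-- `X` is the intersection graph of closed Euclidean balls of radius one in `ℝ³` whose centres
have distance at most `ε` from one of the two points `(0, 0, 0)` and `(2, 0, 0)`. -/
def IsPinched (ε : ℝ) {V : Type} (X : SimpleGraph V) : Prop :=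
  ∃ z : V → EuclideanSpace ℝ (Fin 3), (∀ v, dist (z v) 0 ≤ ε ∨ dist (z v) !₂[2, 0, 0] ≤ ε) ∧
    ∀ u v : V, X.Adj u v ↔
      u ≠ v ∧ (Metric.closedBall (z u) 1 ∩ Metric.closedBall (z v) 1).Nonempty

/-- `X` is the intersection graph of closed Euclidean balls of radius one in `ℝ³` whose centres
lie in the slab `ℝ² × [-ε, ε]`. -/
def IsSlab (ε : ℝ) {V : Type} (X : SimpleGraph V) : Prop :=
  ∃ z : V → EuclideanSpace ℝ (Fin 3), (∀ v, |z v 2| ≤ ε) ∧
    ∀ u v : V, X.Adj u v ↔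
      u ≠ v ∧ (Metric.closedBall (z u) 1 ∩ Metric.closedBall (z v) 1).Nonempty

variable {V : Type}

theorem IsPinched.slab {ε : ℝ} {X : SimpleGraph V} (h : IsPinched ε X) : IsSlab ε X := by
  obtain ⟨z, hz, h⟩ := h
  refine ⟨z, fun v => ?_, h⟩
  rcases hz v with h1 | h1
  · refine le_trans ?_ h1
    have := PiLp.norm_apply_le (z v - 0) 2
    rw [dist_eq_norm]
    simpa using this
  · refine le_trans ?_ h1
    have := PiLp.norm_apply_le (z v - !₂[2, 0, 0]) 2
    rw [dist_eq_norm]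
    simpa using this

/-- It suffices to look at distances. -/
theorem Keyed.realiseAt {E : Type} [NormedAddCommGroup E] [NormedSpace ℝ E] {X : SimpleGraph V}
    {low : V → Prop} {p : Fin 3 → V → ℕ} (h : Keyed X low p) (z : V → E)
    (h1 : ∀ u v, (low u ↔ low v) → dist (z u) (z v) ≤ 2)
    (h2 : ∀ u v, low u → ¬ low v → (dist (z u) (z v) ≤ 2 ↔ ∀ i, p i u < p i v)) :
    ∀ u v : V, X.Adj u v ↔
      u ≠ v ∧ (Metric.closedBall (z u) 1 ∩ Metric.closedBall (z v) 1).Nonempty := by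
  intro u v
  rw [closedBall_inter_nonempty]
  by_cases hu : low u <;> by_cases hv : low v
  · exact ⟨fun h3 => ⟨h3.ne, h1 u v (by tauto)⟩, fun h3 => h.same u v h3.1 (by tauto)⟩
  · rw [h.cross u v hu hv, h2 u v hu hv]
    refine ⟨fun h3 => ⟨?_, h3⟩, fun h3 => h3.2⟩
    rintro rfl
    exact hv hu
  · rw [X.adj_comm, h.cross v u hv hu, dist_comm, h2 v u hv hu]
    refine ⟨fun h3 => ⟨?_, h3⟩, fun h3 => h3.2⟩
    rintro rfl
    exact hu hv
  · exact ⟨fun h3 => ⟨h3.ne, h1 u v (by tauto)⟩, fun h3 => h.same u v h3.1 (by tauto)⟩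

open Classical in
/-- **Balls**, with the centres near to two points. -/
theorem Keyed.pinched [Finite V] {X : SimpleGraph V} {low : V → Prop} {p : Fin 3 → V → ℕ}
    (h : Keyed X low p) {η : ℝ} (hη : 0 < η) : IsPinched η X := by
  -- the coordinates
  let P : Fin 3 → V → ℝ := fun i v => 4 ^ (p i v)
  have hP : ∀ i v, 0 < P i v := fun i v => by positivity
  -- `x`, `σ` for low vertices and `y`, `τ` for the others
  let a : V → ℝ := fun v => if low v then P 0 v else -(P 2 v / P 0 v) / 2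
  let b : V → ℝ := fun v => if low v then P 1 v else -(P 2 v / P 1 v) / 2
  let s : V → ℝ := fun v => if low v then -P 2 v else P 2 v
  let A : V → ℝ := fun v => (a v ^ 2 + b v ^ 2 + s v) / 4
  let Q : V → V → ℝ := fun u v => 2 * (a u * a v + b u * b v) + (s u + s v)
  have hQ : ∀ u v, low u → ¬ low v → ((∀ i, p i u < p i v) → 0 < Q u v) ∧
      ((¬ ∀ i, p i u < p i v) → Q u v < 0) := by
    intro u v hu hv
    have e : Q u v = P 2 v * (1 - (P 0 u / P 0 v + P 1 u / P 1 v + P 2 u / P 2 v)) := by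
      simp only [Q, a, b, s, if_pos hu, if_neg hv]
      have h0 := (hP 0 v).ne'
      have h1 := (hP 1 v).ne'
      have h2 := (hP 2 v).ne'
      field_simp
      ring
    rw [e]
    constructor
    · intro hlt
      have key : ∀ i, P i u / P i v ≤ 1 / 4 := by
        intro i
        rw [div_le_div_iff₀ (hP i v) (by norm_num)]
        have h3 : p i u + 1 ≤ p i v := hlt i
        calc P i u * 4 = 4 ^ (p i u + 1) := by rw [pow_succ]
          _ ≤ 4 ^ (p i v) := pow_le_pow_right₀ (by norm_num) h3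
          _ = 1 * P i v := by rw [one_mul]
      have k0 := key 0
      have k1 := key 1
      have k2 := key 2
      exact mul_pos (hP 2 v) (by linarith)
    · intro hn
      rw [not_forall] at hn
      obtain ⟨i, hi⟩ := hn
      have key : 1 ≤ P i u / P i v := by
        rw [le_div_iff₀ (hP i v), one_mul]
        exact pow_le_pow_right₀ (by norm_num) (not_lt.1 hi)
      have k0 : 0 < P 0 u / P 0 v := div_pos (hP 0 u) (hP 0 v)
      have k1 : 0 < P 1 u / P 1 v := div_pos (hP 1 u) (hP 1 v)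
      have k2 : 0 < P 2 u / P 2 v := div_pos (hP 2 u) (hP 2 v)
      refine mul_neg_of_pos_of_neg (hP 2 v) ?_
      fin_cases i <;> simp only [Fin.zero_eta, Fin.mk_one, Fin.reduceFinMk] at key <;> linarith
  -- the choice of the scale
  have hε : ∃ ε : ℝ, 0 < ε ∧ (∀ u v, ε ^ 2 * ((a u - a v) ^ 2 + (b u - b v) ^ 2) ≤ 2) ∧
      (∀ u v, ε ^ 2 * (ε ^ 2 * (A u - A v) ^ 2) ≤ 2) ∧
      (∀ u v, 0 < Q u v → ε ^ 2 * (A u + A v) ^ 2 ≤ Q u v) ∧
      (∀ v, (ε ^ 2 * A v) ^ 2 + (ε * a v) ^ 2 + (ε * b v) ^ 2 ≤ η ^ 2) := by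
    have h1 : ∀ᶠ ε : ℝ in 𝓝[>] (0 : ℝ), 0 < ε := eventually_mem_nhdsWithin
    have h2 : ∀ᶠ ε : ℝ in 𝓝[>] (0 : ℝ), ∀ u v, ε ^ 2 * ((a u - a v) ^ 2 + (b u - b v) ^ 2) ≤ 2 := by
      rw [eventually_all]
      intro u
      rw [eventually_all]
      intro v
      exact eventually_small _ _ (by norm_num)
    have h3 : ∀ᶠ ε : ℝ in 𝓝[>] (0 : ℝ), ∀ u v, ε ^ 2 * (A u - A v) ^ 2 ≤ 1 := by
      rw [eventually_all]
      intro u
      rw [eventually_all]
      intro v
      exact eventually_small _ _ (by norm_num)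
    have h4 : ∀ᶠ ε : ℝ in 𝓝[>] (0 : ℝ), ∀ u v, 0 < Q u v → ε ^ 2 * (A u + A v) ^ 2 ≤ Q u v := by
      rw [eventually_all]
      intro u
      rw [eventually_all]
      intro v
      by_cases hq : 0 < Q u v
      · exact (eventually_small _ _ hq).mono fun _ h _ => h
      · exact Eventually.of_forall fun _ h => absurd h hq
    have h5 : ∀ᶠ ε : ℝ in 𝓝[>] (0 : ℝ), ε ^ 2 * 1 ≤ 1 := eventually_small _ _ one_pos
    have h10 : ∀ᶠ ε : ℝ in 𝓝[>] (0 : ℝ), ∀ v, ε ^ 2 * (A v ^ 2 + a v ^ 2 + b v ^ 2) ≤ η ^ 2 := by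
      rw [eventually_all]
      intro v
      exact eventually_small _ _ (by positivity)
    obtain ⟨ε, ⟨⟨⟨⟨h1, h2⟩, h3⟩, h4⟩, h5⟩, h10⟩ :=
      (((((h1.and h2).and h3).and h4).and h5).and h10).exists
    refine ⟨ε, h1, h2, fun u v => ?_, h4, fun v => ?_⟩
    swap
    · have h11 := h10 v
      have h12 : (ε ^ 2 * A v) ^ 2 ≤ ε ^ 2 * A v ^ 2 := by
        have h13 : 0 ≤ A v ^ 2 := sq_nonneg _
        have h14 : 0 ≤ ε ^ 2 := sq_nonneg _
        have h15 : ε ^ 2 ≤ 1 := by linarith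
        calc (ε ^ 2 * A v) ^ 2 = ε ^ 2 * (ε ^ 2 * A v ^ 2) := by ring
          _ ≤ ε ^ 2 * (1 * A v ^ 2) := by gcongr
          _ = ε ^ 2 * A v ^ 2 := by ring
      nlinarith
    have h6 := h3 u v
    have h7 : 0 ≤ ε ^ 2 := sq_nonneg _
    have h8 : 0 ≤ ε ^ 2 * (A u - A v) ^ 2 := by positivity
    nlinarith
  obtain ⟨ε, hε0, hε1, hε2, hε3, hε4⟩ := hε
  refine ⟨fun v => if low v then !₂[ε ^ 2 * A v, ε * a v, ε * b v]
    else !₂[2 - ε ^ 2 * A v, ε * a v, ε * b v], fun v => ?_, h.realiseAt _ ?_ ?_⟩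
  · have e4 := hε4 v
    by_cases hv : low v
    · left
      simp only [if_pos hv]
      rw [EuclideanSpace.dist_eq, Real.sqrt_le_left hη.le]
      simp only [Fin.sum_univ_three, Real.dist_eq, sq_abs]
      simp
      linarith
    · right
      simp only [if_neg hv]
      rw [EuclideanSpace.dist_eq, Real.sqrt_le_left hη.le]
      simp only [Fin.sum_univ_three, Real.dist_eq, sq_abs]
      simp
      linarith
  · intro u v huv
    have e2 := hε2 u v
    have e1 := hε1 u v
    by_cases hu : low u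
    · rw [if_pos hu, if_pos (huv.1 hu), EuclideanSpace.dist_eq, Real.sqrt_le_left (by norm_num)]
      simp only [Fin.sum_univ_three, Real.dist_eq, sq_abs]
      simp
      nlinarith
    · rw [if_neg hu, if_neg (fun h => hu (huv.2 h)), EuclideanSpace.dist_eq,
        Real.sqrt_le_left (by norm_num)]
      simp only [Fin.sum_univ_three, Real.dist_eq, sq_abs]
      simp
      nlinarith
  · intro u v hu hv
    obtain ⟨q1, q2⟩ := hQ u v hu hv
    have key : dist (!₂[ε ^ 2 * A u, ε * a u, ε * b u] : EuclideanSpace ℝ (Fin 3))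
        !₂[2 - ε ^ 2 * A v, ε * a v, ε * b v] ≤ 2 ↔ ε ^ 2 * (A u + A v) ^ 2 ≤ Q u v := by
      rw [EuclideanSpace.dist_eq, Real.sqrt_le_left (by norm_num)]
      simp only [Fin.sum_univ_three, Real.dist_eq, sq_abs]
      have e : (ε ^ 2 * A u - (2 - ε ^ 2 * A v)) ^ 2 + (ε * a u - ε * a v) ^ 2 +
          (ε * b u - ε * b v) ^ 2 = 4 + ε ^ 2 * (ε ^ 2 * (A u + A v) ^ 2 - Q u v) := by
        simp only [A, Q]
        ring
      have e' : ((!₂[ε ^ 2 * A u, ε * a u, ε * b u] : EuclideanSpace ℝ (Fin 3)) 0 -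
          (!₂[2 - ε ^ 2 * A v, ε * a v, ε * b v] : EuclideanSpace ℝ (Fin 3)) 0) ^ 2 +
          ((!₂[ε ^ 2 * A u, ε * a u, ε * b u] : EuclideanSpace ℝ (Fin 3)) 1 -
          (!₂[2 - ε ^ 2 * A v, ε * a v, ε * b v] : EuclideanSpace ℝ (Fin 3)) 1) ^ 2 +
          ((!₂[ε ^ 2 * A u, ε * a u, ε * b u] : EuclideanSpace ℝ (Fin 3)) 2 -
          (!₂[2 - ε ^ 2 * A v, ε * a v, ε * b v] : EuclideanSpace ℝ (Fin 3)) 2) ^ 2 =
          (ε ^ 2 * A u - (2 - ε ^ 2 * A v)) ^ 2 + (ε * a u - ε * a v) ^ 2 +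
          (ε * b u - ε * b v) ^ 2 := rfl
      rw [e', e]
      have h7 : 0 < ε ^ 2 := by positivity
      constructor
      · intro h8
        have h9 : ε ^ 2 * (ε ^ 2 * (A u + A v) ^ 2 - Q u v) ≤ 0 := by linarith
        have h10 := nonpos_of_mul_nonpos_right h9 h7
        linarith
      · intro h8
        have h9 : ε ^ 2 * (ε ^ 2 * (A u + A v) ^ 2 - Q u v) ≤ 0 :=
          mul_nonpos_of_nonneg_of_nonpos h7.le (by linarith)
        linarith
    rw [if_pos hu, if_neg hv, key]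
    constructor
    · intro h3
      by_contra hc
      have h4 := q2 hc
      have h5 : 0 ≤ ε ^ 2 * (A u + A v) ^ 2 := by positivity
      linarith
    · intro h3
      exact hε3 u v (q1 h3)

/-- The class of the finite graphs whose vertex set is the union of two cliques, which are, for
every `ε > 0`, intersection graphs of Euclidean balls of radius one in `ℝ³` with centres at distance
at most `ε` from the two points `(0, 0, 0)` and `(2, 0, 0)`, and which are intersection graphs of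
axis-parallel cubes of side two in `ℝ³`. -/
def PinchedClass {n : ℕ} (X : SimpleGraph (Fin n)) : Prop :=
  CoBipartite X ∧ (∀ ε : ℝ, 0 < ε → IsPinched ε X) ∧ IsUnitBallGraph (Fin 3 → ℝ) X

/-- the same for an arbitrary vertex type -/
def GoodP {V : Type} (X : SimpleGraph V) : Prop :=
  CoBipartite X ∧ (∀ ε : ℝ, 0 < ε → IsPinched ε X) ∧ IsUnitBallGraph (Fin 3 → ℝ) X

theorem IsPinched.of_iso {ε : ℝ} {V V' : Type} {X : SimpleGraph V}
    {X' : SimpleGraph V'} (φ : X' ≃g X) (h : IsPinched ε X) : IsPinched ε X' := by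
  obtain ⟨z, hz, h⟩ := h
  refine ⟨fun v => z (φ v), fun v => hz (φ v), fun u v => ?_⟩
  rw [← φ.map_adj_iff, h]
  exact and_congr (not_congr φ.injective.eq_iff) Iff.rfl

theorem GoodP.of_iso {V V' : Type} {X : SimpleGraph V} {X' : SimpleGraph V'} (φ : X' ≃g X)
    (h : GoodP X) : GoodP X' := by
  obtain ⟨⟨s, hs⟩, h2, h3⟩ := h
  refine ⟨⟨φ ⁻¹' s, fun u v hne h => ?_⟩, fun ε hε => (h2 ε hε).of_iso φ, h3.of_iso φ⟩
  rw [← φ.map_adj_iff]
  exact hs _ _ (fun hc => hne (φ.injective hc)) h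

theorem goodP_BG {n : ℕ} (X : SimpleGraph (Fin n)) : GoodP (BG (AX X) (RR n)) := by
  obtain ⟨N⟩ := exists_num (U := Fin n) (W := Fin n × Fin n) (R := RR n) (by
    rw [Nat.card_prod, Nat.card_eq_fintype_card, Fintype.card_fin]
    exact Nat.le_succ _)
  obtain ⟨p, hp⟩ := BG_keyed (A := AX X) N
  exact ⟨hp.cobip, fun ε hε => hp.pinched hε, hp.cube⟩

/-- small graphs -/
theorem goodP_small {n : ℕ} (X : SimpleGraph (Fin n)) (hn : n ≤ 1) : PinchedClass X := by
  have key : ∀ u v : Fin n, u = v := fun u v => Fin.ext (by omega)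
  refine ⟨⟨Set.univ, fun u v hne => absurd (key u v) hne⟩, fun ε hε => ⟨fun _ => 0, fun v => ?_,
    fun u v => ?_⟩, ⟨fun _ => 0, fun u v => ?_⟩⟩
  · left; rw [dist_self]; exact hε.le
  · exact ⟨fun h => absurd (key u v) h.ne, fun h => absurd (key u v) h.1⟩
  · exact ⟨fun h => absurd (key u v) h.ne, fun h => absurd (key u v) h.1⟩

theorem redK_specP (p : List (List Bool) × List (List Bool)) :
    ∃ (N M : ℕ) (X' : SimpleGraph (Fin N)) (Y' : SimpleGraph (Fin M)),
      redK p = (adjMatrix X', adjMatrix Y') ∧ PinchedClass X' ∧ PinchedClass Y' ∧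
        (GraphIso p ↔ Nonempty (X' ≃g Y')) := by
  by_cases h : (valid p.1 = true ∧ valid p.2 = true) ∧ p.1.length = p.2.length
  · obtain ⟨p1, p2⟩ := p
    obtain ⟨⟨h1, h2⟩, h3⟩ := h
    rw [valid_iff] at h1 h2
    obtain ⟨n, X, rfl⟩ := h1
    obtain ⟨m, Y, rfl⟩ := h2
    rw [length_adjMatrix, length_adjMatrix] at h3
    subst h3
    have hval : (valid (adjMatrix X, adjMatrix Y).1 = true ∧
        valid (adjMatrix X, adjMatrix Y).2 = true) ∧
        (adjMatrix X, adjMatrix Y).1.length = (adjMatrix X, adjMatrix Y).2.length :=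
      ⟨⟨(valid_iff _).2 ⟨n, X, rfl⟩, (valid_iff _).2 ⟨n, Y, rfl⟩⟩, by
        rw [length_adjMatrix, length_adjMatrix]⟩
    by_cases hn : 2 ≤ n
    · obtain ⟨N, X', hX', ⟨φ⟩⟩ := outK_eq X
      obtain ⟨M, Y', hY', ⟨ψ⟩⟩ := outK_eq Y
      refine ⟨N, M, X', Y', ?_, (goodP_BG X).of_iso φ, (goodP_BG Y).of_iso ψ, ?_⟩
      · unfold redK
        rw [if_pos hval, if_pos (by rw [length_adjMatrix]; exact hn), hX', hY']
      · rw [graphIso_iff, iso_iff_BG hn X Y (R := RR n) (Nat.succ_pos _)]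
        constructor
        · rintro ⟨χ⟩
          exact ⟨φ.trans (χ.trans ψ.symm)⟩
        · rintro ⟨χ⟩
          exact ⟨φ.symm.trans (χ.trans ψ)⟩
    · refine ⟨0, 0, ⊥, ⊥, ?_, goodP_small _ (by norm_num), goodP_small _ (by norm_num), ?_⟩
      · unfold redK
        rw [if_pos hval, if_neg (by rw [length_adjMatrix]; exact hn)]
        simp [adjMatrix]
      · rw [graphIso_iff]
        have key : ∀ u v : Fin n, u = v := fun u v => Fin.ext (by omega)
        refine ⟨fun _ => ⟨SimpleGraph.Iso.refl⟩, fun _ => ⟨⟨Equiv.refl _, fun {a b} => ?_⟩⟩⟩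
        exact ⟨fun h => absurd (key _ _) h.ne, fun h => absurd (key _ _) h.ne⟩
  · refine ⟨0, 1, ⊥, ⊥, ?_, goodP_small _ (by norm_num), goodP_small _ le_rfl, ?_⟩
    · unfold redK
      rw [if_neg h]
      simp [adjMatrix]
    · constructor
      · rintro ⟨n, m, X, Y, h1, h2, ⟨φ⟩⟩
        exfalso
        apply h
        refine ⟨⟨(valid_iff _).2 ⟨n, X, h1⟩, (valid_iff _).2 ⟨m, Y, h2⟩⟩, ?_⟩
        rw [← h1, ← h2, length_adjMatrix, length_adjMatrix]
        have := Fintype.card_congr φ.toEquiv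
        simpa using this
      · rintro ⟨φ⟩
        exact (φ.symm 0).elim0

theorem redKBits_specP (x : List Bool) :
    ∃ (N M : ℕ) (X' : SimpleGraph (Fin N)) (Y' : SimpleGraph (Fin M)),
      redKBits x = (adjMatrix X', adjMatrix Y') ∧ PinchedClass X' ∧ PinchedClass Y' ∧
        (x ∈ lang GraphIso ↔ Nonempty (X' ≃g Y')) := by
  unfold redKBits
  rw [mem_lang_iff]
  cases h : unbits (List (List Bool) × List (List Bool)) x with
  | none =>
    refine ⟨0, 1, ⊥, ⊥, ?_, goodP_small _ (by norm_num), goodP_small _ le_rfl, ?_⟩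
    · simp [adjMatrix]
    · constructor
      · rintro ⟨a, ha, _⟩
        exact absurd ha (by simp)
      · rintro ⟨φ⟩
        exact (φ.symm 0).elim0
  | some p =>
    obtain ⟨N, M, X', Y', h1, h2, h3, h4⟩ := redK_specP p
    refine ⟨N, M, X', Y', h1, h2, h3, ?_⟩
    rw [← h4]
    constructor
    · rintro ⟨a, ha, h5⟩
      rw [Option.some.inj ha]
      exact h5
    · intro h5
      exact ⟨p, rfl, h5⟩

/-- The graph isomorphism problem reduces in polynomial time to the isomorphism problem of graphs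
of the class. -/
theorem mainP : ∃ f : List Bool → List Bool, PolyTime f ∧ ∀ x : List Bool,
    ∃ (N M : ℕ) (X' : SimpleGraph (Fin N)) (Y' : SimpleGraph (Fin M)),
      f x = bits (adjMatrix X', adjMatrix Y') ∧ PinchedClass X' ∧ PinchedClass Y' ∧
        (x ∈ lang GraphIso ↔ Nonempty (X' ≃g Y')) := by
  refine ⟨fun x => bits (redKBits x), polyTime_bits poly_redKBits, fun x => ?_⟩
  obtain ⟨N, M, X', Y', h1, h2, h3, h4⟩ := redKBits_specP x
  exact ⟨N, M, X', Y', congrArg bits h1, h2, h3, h4⟩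

/-- The reduction works for every class which contains the graphs of `PinchedClass`. -/
theorem reducesP (C : ∀ n : ℕ, SimpleGraph (Fin n) → Prop)
    (hC : ∀ (n : ℕ) (X : SimpleGraph (Fin n)), PinchedClass X → C n X) :
    Reduces (lang GraphIso) (lang (ClassIso C)) := by
  obtain ⟨f, hf, h⟩ := mainP
  refine ⟨f, hf, fun x => ?_⟩
  obtain ⟨N, M, X', Y', h1, h2, h3, h4⟩ := h x
  rw [h4, h1, bits_mem_class C X' Y' (hC _ _ h2) (hC _ _ h3)]

/-- Membership in `P` of the isomorphism problem restricted to the class, as a promise problem. -/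
theorem inP_iffP : InP (lang GraphIso) ↔ ∃ L : Set (List Bool), InP L ∧
    ∀ (N M : ℕ) (X : SimpleGraph (Fin N)) (Y : SimpleGraph (Fin M)), PinchedClass X → PinchedClass Y →
      (bits (adjMatrix X, adjMatrix Y) ∈ L ↔ Nonempty (X ≃g Y)) := by
  constructor
  · intro h
    exact ⟨_, h, fun N M X Y _ _ => bits_mem X Y⟩
  · rintro ⟨L, hL, h⟩
    obtain ⟨f, hf, h'⟩ := mainP
    refine InP.of_reduces ⟨f, hf, fun x => ?_⟩ hL
    obtain ⟨N, M, X', Y', h1, h2, h3, h4⟩ := h' x
    rw [h4, h1, h N M X' Y' h2 h3]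

end Pool.Agent.J4.H79.GI
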